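import Pool.Agent.Q277.Half864B

/-!
# MP_d4e3f3_nt

`5^(-a) ∑_{k<5^a} k C(6k,3k) C(3k,k) / 864^k ≡ 75 (mod 125)` for every `a ≥ 1`.
-/

set_option autoImplicit false

namespace Pool.Agent.Results.MP_d4e3f3_nt.PowersOfFive

open Finset

/-- `S_a = ∑_{k=0}^{5^a-1} k C(6k,3k) C(3k,k) / 864^k`. -/
def S (a : ℕ) : ℚ :=
  ∑ k ∈ range (5 ^ a), ((k * ((6 * k).choose (3 * k) * (3 * k).choose k) : ℕ) : ℚ) / 864 ^ k

/-- **MP_d4e3f3_nt, Q1.** For every positive integer `a`, `S_a / 5^a - 75 = 125 r` with a rational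
number `r` whose reduced denominator is prime to `5`. -/
theorem result (a : ℕ) (ha : 1 ≤ a) :
    ∃ r : ℚ, Nat.Coprime r.den 5 ∧ 1 / 5 ^ a * S a - 75 = 125 * r := by
  have : Fact (Nat.Prime 5) := ⟨by norm_num⟩
  have h := Pool.Agent.Q277.Half864.main a ha
  obtain ⟨r, hr, he⟩ := Pool.Agent.H434R2.PO.exists_rep h
  refine ⟨r, hr, ?_⟩
  have e : S a = ∑ k ∈ range (5 ^ a), (k : ℚ) *
      (((6 * k).choose (3 * k) * (3 * k).choose k : ℕ) / 864 ^ k) := by
    unfold S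
    refine sum_congr rfl fun k _ => ?_
    push_cast
    ring
  rw [e]
  push_cast at he ⊢
  linear_combination he

end Pool.Agent.Results.MP_d4e3f3_nt.PowersOfFive
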